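import Mathlib
import Pool.Agent.V11283.Heis.Nondom
import Pool.Agent.V11283.Heis.Stmt

/-!
# MP_d060c1: an invariant norm on the p-adic Schrödinger representation dominating no
Grassmannian norm

All definitions used in the statement are in `Pool.Agent.V11283.Heis.Stmt`.
-/

namespace Pool.Agent.Results.MP_d060c1_nt.ExoticNorm

open Pool.Agent.V11283.Heis Pool.Agent.V11283.Heis.St

/-- For every prime `p`, every `d ≥ 1` and every nontrivial smooth character `ψ` there is a
Heisenberg-invariant norm on the Schwartz-Bruhat space which dominates none of the norms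
`‖·‖_α`: for every symplectic `g` and every intertwining operator `T` for `g`, the normalised norm
`f ↦ ‖T f‖_∞ / ‖T 1_{ℤ_p^d}‖_∞` is not dominated by `N`. -/
theorem result (p : ℕ) [Fact p.Prime] (d : ℕ) (hd : 1 ≤ d) (ψ : AddChar ℚ_[p] ℂ_[p])
    (hψ : IsOpen {t : ℚ_[p] | ψ t = 1}) (hψ1 : ψ ≠ 1) :
    ∃ N : S p d → ℝ, IsNorm N ∧ Invariant ψ hψ N ∧
      ∀ g ∈ Matrix.symplecticGroup (Fin d) ℚ_[p], ∀ T : S p d ≃ S p d,
        Intertwines ψ hψ g T → ¬ Dominates N (St.grNorm T) := by
  obtain ⟨N, hN, hinv, hdom⟩ := exotic_main (norm_p p) hd ψ hψ hψ1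
  refine ⟨fun f => N (toSB f), isNorm_of hN, fun w t f => hinv w t (toSB f), ?_⟩
  intro g hg T hT hcon
  obtain ⟨c, hc, h⟩ := hcon
  refine hdom g hg (equivOf hT.1) ?_ ⟨c, hc, fun f => ?_⟩
  · intro w t f
    exact congrArg toSB (hT.2 w t (ofSB f))
  · exact h (ofSB f)

end Pool.Agent.Results.MP_d060c1_nt.ExoticNorm
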